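import Mathlib

/-!
# The linearized Oldroyd model: the boundary data do not determine the obstacle

For every bounded open `Ω`, every pair of obstacles `D₁`, `D₂` with closures in `Ω` which do not
cover `Ω`, and all `ν, α, β, T > 0` we construct an admissible source `f` (smooth in `x`, continuous
in time, with a genuine jump in `∂_t f` at a time `t₁`) for which the two obstacle problems have
solutions with equal (namely zero) normal stress on the whole outer boundary for all times. The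
velocity is not identically zero. The source is produced by a divergence free field `w` with compact
support in `Ω` away from both obstacles, switched on at the time `t₁`.
-/

set_option autoImplicit false

namespace Pool.Agent.Results.MP_b53110_an.HiddenObstacles

open Set Filter Topology MeasureTheory
open scoped ContDiff

/-- Euclidean space. -/
abbrev E (d : ℕ) := EuclideanSpace ℝ (Fin d)

variable {d : ℕ}

/-- Partial derivative in the direction of the `j`-th coordinate. -/
noncomputable def pd (j : Fin d) (g : E d → ℝ) (x : E d) : ℝ :=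
  fderiv ℝ g x (EuclideanSpace.single j 1)

/-- Laplacian of a scalar function. -/
noncomputable def lap (g : E d → ℝ) (x : E d) : ℝ := ∑ j, pd j (pd j g) x

/-- Divergence of a vector field. -/
noncomputable def dvg (u : E d → Fin d → ℝ) (x : E d) : ℝ := ∑ i, pd i (fun y => u y i) x

/-- Symmetric gradient `e(u) = (∇u + (∇u)ᵗ) / 2`. -/
noncomputable def symGrad (u : E d → Fin d → ℝ) (x : E d) : Matrix (Fin d) (Fin d) ℝ :=
  Matrix.of fun i j => (pd j (fun y => u y i) x + pd i (fun y => u y j) x) / 2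

/-- Divergence (row by row) of a matrix field. -/
noncomputable def dvgMat (τ : E d → Matrix (Fin d) (Fin d) ℝ) (x : E d) (i : Fin d) : ℝ :=
  ∑ j, pd j (fun y => τ y i j) x

/-- Newtonian stress `σ(u, p) = 2 ν e(u) - p Id`. -/
noncomputable def stress (ν : ℝ) (u : E d → Fin d → ℝ) (p : E d → ℝ) (x : E d) :
    Matrix (Fin d) (Fin d) ℝ :=
  (2 * ν) • symGrad u x - p x • (1 : Matrix (Fin d) (Fin d) ℝ)

/-- Regularity asked of a classical solution in the exterior domain `Ω \ closure D`. -/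
structure IsRegular (T : ℝ) (Ω D : Set (E d)) (u : ℝ → E d → Fin d → ℝ)
    (p : ℝ → E d → ℝ) (τ : ℝ → E d → Matrix (Fin d) (Fin d) ℝ) : Prop where
  u_cont : ∀ i, ContinuousOn (fun q : ℝ × E d => u q.1 q.2 i) (Ioo 0 T ×ˢ (closure Ω \ D))
  u_smooth : ∀ t ∈ Ioo 0 T, ∀ i, ContDiffOn ℝ 2 (fun x => u t x i) (Ω \ closure D)
  p_smooth : ∀ t ∈ Ioo 0 T, ContDiffOn ℝ 1 (p t) (Ω \ closure D)
  τ_smooth : ∀ t ∈ Ioo 0 T, ∀ i j, ContDiffOn ℝ 1 (fun x => τ t x i j) (Ω \ closure D)
  u_time : ∀ t ∈ Ioo 0 T, ∀ x ∈ Ω \ closure D, ∀ i, DifferentiableAt ℝ (fun s => u s x i) t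
  τ_time : ∀ t ∈ Ioo 0 T, ∀ x ∈ Ω \ closure D, ∀ i j, DifferentiableAt ℝ (fun s => τ s x i j) t

/-- The momentum equation `∂_t u + ∇p - ν Δu - div τ = f` at `(t, x)`. -/
def Momentum (ν : ℝ) (f u : ℝ → E d → Fin d → ℝ) (p : ℝ → E d → ℝ)
    (τ : ℝ → E d → Matrix (Fin d) (Fin d) ℝ) (t : ℝ) (x : E d) : Prop :=
  ∀ i, deriv (fun s => u s x i) t + pd i (p t) x - ν * lap (fun y => u t y i) x -
    dvgMat (τ t) x i = f t x i

/-- The law `∂_t τ = 2 β e(u) - α τ` of the extra stress at `(t, x)`. -/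
def Elastic (α β : ℝ) (u : ℝ → E d → Fin d → ℝ)
    (τ : ℝ → E d → Matrix (Fin d) (Fin d) ℝ) (t : ℝ) (x : E d) : Prop :=
  ∀ i j, deriv (fun s => τ s x i j) t = 2 * β * symGrad (u t) x i j - α * τ t x i j

/-- `(u, p, τ)` is a classical solution of the linearized Oldroyd system with source `f` in
`(Ω \ closure D) × (0, T)`, with `u = 0` on `(∂Ω ∪ ∂D) × (0, T)`. -/
structure IsSolution (ν α β T : ℝ) (Ω D : Set (E d)) (f u : ℝ → E d → Fin d → ℝ)
    (p : ℝ → E d → ℝ) (τ : ℝ → E d → Matrix (Fin d) (Fin d) ℝ) : Prop where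
  regular : IsRegular T Ω D u p τ
  momentum : ∀ t ∈ Ioo 0 T, ∀ x ∈ Ω \ closure D, Momentum ν f u p τ t x
  incompressible : ∀ t ∈ Ioo 0 T, ∀ x ∈ Ω \ closure D, dvg (u t) x = 0
  elastic : ∀ t ∈ Ioo 0 T, ∀ x ∈ Ω \ closure D, Elastic α β u τ t x
  boundary : ∀ t ∈ Ioo 0 T, ∀ x ∈ frontier Ω ∪ frontier D, u t x = 0

/-- `F` is in `L²(I × Ω)`. -/
def InL2 (I : Set ℝ) (Ω : Set (E d)) (F : ℝ → E d → Fin d → ℝ) : Prop :=
  ∀ i, MemLp (fun q : ℝ × E d => F q.1 q.2 i) 2 ((volume.restrict I).prod (volume.restrict Ω))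

/-- `G` is the time derivative of `F` on `(0, T) × Ω`: `F` is a primitive in time of `G`. -/
def IsTimeDeriv (T : ℝ) (Ω : Set (E d)) (F G : ℝ → E d → Fin d → ℝ) : Prop :=
  ∀ i, ∀ x ∈ Ω, ∀ s ∈ Ioo 0 T, ∀ t ∈ Ioo 0 T, IntervalIntegrable (fun r => G r x i) volume s t ∧
    F t x i - F s x i = ∫ r in s..t, G r x i

/-- `r`, as an `L²(μ)`-valued map on `J`, has an analytic extension to `I`. -/
def AnalyticLift {X : Type*} [MeasurableSpace X] (μ : Measure X) (I J : Set ℝ)
    (r : ℝ → X → ℝ) : Prop :=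
  ∃ R : ℝ → Lp ℝ 2 μ, AnalyticOnNhd ℝ R I ∧ ∀ t ∈ J, (R t : X → ℝ) =ᵐ[μ] r t

/-- `r`, as an `L²(Ω)`-valued map on `(t₀, t₁]`, has an analytic extension to `(t₀, t₁ + ε)` for
some `ε > 0`. -/
def AnalyticExtension (t₀ t₁ : ℝ) (Ω : Set (E d)) (r : ℝ → E d → Fin d → ℝ) : Prop :=
  ∃ ε : ℝ, 0 < ε ∧ ∀ i, AnalyticLift (volume.restrict Ω) (Ioo t₀ (t₁ + ε)) (Ioc t₀ t₁)
    (fun t x => r t x i)

/-- The structure `∂_t^m f = a₁ f₀ + r₁` on `(t₀, t₁)`, `∂_t^m f = a₂ f₀ + r₂` on `(t₁, t₂)` with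
`f₀ ∈ L²(Ω)`, `a₁ f₀ ≢ a₂ f₀`, `r₂ ∈ L²((t₁, t₂) × Ω)` and `r₁` analytic up to `t₁`
(here `G = ∂_t^m f`). -/
def HasJump (t₀ t₁ t₂ a₁ a₂ : ℝ) (Ω : Set (E d)) (G : ℝ → E d → Fin d → ℝ)
    (f₀ : E d → Fin d → ℝ) (r₁ r₂ : ℝ → E d → Fin d → ℝ) : Prop :=
  (∀ i, MemLp (fun x => f₀ x i) 2 (volume.restrict Ω)) ∧
  (¬ ∀ᵐ x ∂(volume.restrict Ω), a₁ • f₀ x = a₂ • f₀ x) ∧
  (∀ t ∈ Ioo t₀ t₁, ∀ x ∈ Ω, G t x = a₁ • f₀ x + r₁ t x) ∧
  (∀ t ∈ Ioo t₁ t₂, ∀ x ∈ Ω, G t x = a₂ • f₀ x + r₂ t x) ∧
  InL2 (Ioo t₁ t₂) Ω r₂ ∧ AnalyticExtension t₀ t₁ Ω r₁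

/-- The hypotheses of the problem on the source `f`. The functions `g j` are the time derivatives
`∂_t^j f` for `j ≤ m`, all in `L²((0, T) × Ω)`; `∂_t^m f` has the form of `HasJump`, and
`f₀, r₁, r₂` vanish on `D₁ ∪ D₂`. -/
def Admissible (T : ℝ) (Ω D₁ D₂ : Set (E d)) (f : ℝ → E d → Fin d → ℝ) : Prop :=
  ∃ (m : ℕ) (g : ℕ → ℝ → E d → Fin d → ℝ) (t₀ t₁ t₂ a₁ a₂ : ℝ) (f₀ : E d → Fin d → ℝ)
    (r₁ r₂ : ℝ → E d → Fin d → ℝ),
    g 0 = f ∧ (∀ j ≤ m, InL2 (Ioo 0 T) Ω (g j)) ∧ (∀ j < m, IsTimeDeriv T Ω (g j) (g (j + 1))) ∧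
    0 < t₀ ∧ t₀ < t₁ ∧ t₁ < t₂ ∧ t₂ ≤ T ∧ HasJump t₀ t₁ t₂ a₁ a₂ Ω (g m) f₀ r₁ r₂ ∧
    (∀ x ∈ D₁ ∪ D₂, f₀ x = 0 ∧ (∀ t, r₁ t x = 0) ∧ ∀ t, r₂ t x = 0)

/-! ### Calculus -/

lemma pd_smooth {g : E d → ℝ} (hg : ContDiff ℝ ∞ g) (j : Fin d) : ContDiff ℝ ∞ (pd j g) := by
  unfold pd
  exact (hg.fderiv_right (m := ∞) (by simp)).clm_apply contDiff_const

lemma pd_zero_of_eventually {g : E d → ℝ} {x : E d} (h : g =ᶠ[𝓝 x] fun _ => 0) (j : Fin d) :
    pd j g =ᶠ[𝓝 x] fun _ => 0 := by
  have := h.fderiv (𝕜 := ℝ)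
  filter_upwards [this] with y hy
  unfold pd
  rw [hy]
  simp

lemma pd_const_mul (c : ℝ) {g : E d → ℝ} (hg : ContDiff ℝ ∞ g) (j : Fin d) (x : E d) :
    pd j (fun y => c * g y) x = c * pd j g x := by
  unfold pd
  rw [fderiv_const_mul ((hg.differentiable (by simp)) x)]
  rfl

lemma pd_add {g h : E d → ℝ} (hg : ContDiff ℝ ∞ g) (hh : ContDiff ℝ ∞ h) (j : Fin d) (x : E d) :
    pd j (fun y => g y + h y) x = pd j g x + pd j h x := by
  unfold pd
  rw [fderiv_fun_add ((hg.differentiable (by simp)) x) ((hh.differentiable (by simp)) x)]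
  rfl

lemma pd_sum {G : Fin d → E d → ℝ} (hG : ∀ j, ContDiff ℝ ∞ (G j)) (i : Fin d) (x : E d) :
    pd i (fun y => ∑ j, G j y) x = ∑ j, pd i (G j) x := by
  unfold pd
  rw [fderiv_fun_sum (fun j _ => ((hG j).differentiable (by simp)) x)]
  simp

lemma two_le_infty : (2 : WithTop ℕ∞) ≤ ∞ := by
  have : ((2 : ℕ∞) : WithTop ℕ∞) ≤ ((⊤ : ℕ∞) : WithTop ℕ∞) := WithTop.coe_le_coe.2 le_top
  exact this

lemma pd_comm {g : E d → ℝ} (hg : ContDiff ℝ ∞ g) (i j : Fin d) (x : E d) :
    pd i (pd j g) x = pd j (pd i g) x := by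
  have hd : DifferentiableAt ℝ (fderiv ℝ g) x :=
    ((hg.fderiv_right (m := ∞) (by simp)).differentiable (by simp)) x
  have key : ∀ a b : Fin d, pd a (pd b g) x = fderiv ℝ (fderiv ℝ g) x
      (EuclideanSpace.single a 1) (EuclideanSpace.single b 1) := by
    intro a b
    unfold pd
    have h1 := (hd.hasFDerivAt.clm_apply (hasFDerivAt_const
      (EuclideanSpace.single b (1:ℝ) : E d) x)).fderiv
    rw [h1]
    simp
  rw [key, key]
  exact (hg.contDiffAt.isSymmSndFDerivAt (by simpa using two_le_infty)) _ _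

lemma lap_const_mul (c : ℝ) {g : E d → ℝ} (hg : ContDiff ℝ ∞ g) (x : E d) :
    lap (fun y => c * g y) x = c * lap g x := by
  unfold lap
  rw [Finset.mul_sum]
  apply Finset.sum_congr rfl
  intro j _
  have h1 : pd j (fun y => c * g y) = fun y => c * pd j g y := by
    funext y
    exact pd_const_mul c hg j y
  rw [h1, pd_const_mul c (pd_smooth hg j)]

lemma lap_smooth {g : E d → ℝ} (hg : ContDiff ℝ ∞ g) : ContDiff ℝ ∞ (lap g) := by
  unfold lap
  exact ContDiff.sum fun j _ => pd_smooth (pd_smooth hg j) j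

lemma lap_zero_of_eventually {g : E d → ℝ} {x : E d} (h : g =ᶠ[𝓝 x] fun _ => 0) :
    lap g x = 0 := by
  unfold lap
  apply Finset.sum_eq_zero
  intro j _
  exact (pd_zero_of_eventually (pd_zero_of_eventually h j) j).eq_of_nhds

/-- A smooth divergence free field with compact support in a nonempty open set. -/
theorem exists_field (hd : 2 ≤ d) {V : Set (E d)} (hV : IsOpen V) (hne : V.Nonempty) :
    ∃ (w : E d → Fin d → ℝ) (K : Set (E d)), IsCompact K ∧ K ⊆ V ∧
      (∀ i, ContDiff ℝ ∞ (fun x => w x i)) ∧ (∀ x, x ∉ K → ∀ i, (fun y => w y i) =ᶠ[𝓝 x] fun _ => 0) ∧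
      (∀ x, dvg w x = 0) ∧ ∃ x ∈ V, w x ≠ 0 := by
  obtain ⟨c, hc⟩ := hne
  obtain ⟨r, hr, hball⟩ := Metric.isOpen_iff.1 hV c hc
  let b : ContDiffBump c := ⟨r / 4, r / 2, by positivity, by linarith⟩
  have hb : ContDiff ℝ ∞ (b : E d → ℝ) := b.contDiff
  set i₀ : Fin d := ⟨0, by omega⟩ with hi₀
  set j₀ : Fin d := ⟨1, by omega⟩ with hj₀
  have hij : i₀ ≠ j₀ := by simp [hi₀, hj₀]
  set K : Set (E d) := Metric.closedBall c (r / 2) with hK
  have hKV : K ⊆ V := (Metric.closedBall_subset_ball (by linarith)).trans hball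
  have hzero : ∀ x, x ∉ K → (b : E d → ℝ) =ᶠ[𝓝 x] fun _ => 0 := by
    intro x hx
    have : Kᶜ ∈ 𝓝 x := Metric.isClosed_closedBall.isOpen_compl.mem_nhds hx
    filter_upwards [this] with y hy
    apply b.zero_of_le_dist
    rw [hK, mem_compl_iff, Metric.mem_closedBall, not_le] at hy
    exact hy.le
  set w : E d → Fin d → ℝ := fun x i =>
    if i = i₀ then pd j₀ b x else if i = j₀ then - pd i₀ b x else 0 with hw
  have hwi : (fun x => w x i₀) = pd j₀ b := by
    funext x; simp [hw]
  have hwj : (fun x => w x j₀) = fun x => (-1) * pd i₀ b x := by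
    funext x
    simp [hw, hij.symm]
  have hwo : ∀ i, i ≠ i₀ → i ≠ j₀ → (fun x => w x i) = fun _ => 0 := by
    intro i h1 h2
    funext x
    simp [hw, h1, h2]
  have hsm : ∀ i, ContDiff ℝ ∞ (fun x => w x i) := by
    intro i
    by_cases h1 : i = i₀
    · subst h1; rw [hwi]; exact pd_smooth hb _
    · by_cases h2 : i = j₀
      · subst h2; rw [hwj]; exact contDiff_const.mul (pd_smooth hb _)
      · rw [hwo i h1 h2]; exact contDiff_const
  refine ⟨w, K, isCompact_closedBall c (r / 2), hKV, hsm, ?_, ?_, ?_⟩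
  · intro x hx i
    by_cases h1 : i = i₀
    · subst h1; rw [hwi]; exact pd_zero_of_eventually (hzero x hx) _
    · by_cases h2 : i = j₀
      · subst h2
        rw [hwj]
        filter_upwards [pd_zero_of_eventually (hzero x hx) i₀] with y hy
        rw [hy, mul_zero]
      · rw [hwo i h1 h2]
  · intro x
    unfold dvg
    rw [← Finset.add_sum_erase _ _ (Finset.mem_univ i₀),
      ← Finset.add_sum_erase _ _ (Finset.mem_erase.2 ⟨hij.symm, Finset.mem_univ j₀⟩)]
    have hrest : ∑ i ∈ (Finset.univ.erase i₀).erase j₀, pd i (fun y => w y i) x = 0 := by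
      apply Finset.sum_eq_zero
      intro i hi
      rw [Finset.mem_erase, Finset.mem_erase] at hi
      rw [hwo i hi.2.1 hi.1]
      unfold pd
      simp
    rw [hrest, hwi, hwj, pd_const_mul _ (pd_smooth hb i₀), pd_comm hb i₀ j₀]
    ring
  · by_contra hcon
    push Not at hcon
    have h0 : ∀ x, pd i₀ b x = 0 := by
      intro x
      by_cases hx : x ∈ V
      · have := congrFun (hcon x hx) j₀
        have h2 : w x j₀ = (-1) * pd i₀ b x := congrFun hwj x
        rw [this] at h2
        simp only [Pi.zero_apply] at h2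
        linarith
      · exact (pd_zero_of_eventually (hzero x fun h => hx (hKV h)) i₀).eq_of_nhds
    -- `b` is constant in the direction `i₀`
    have h1 : ∀ s : ℝ, b (c + s • EuclideanSpace.single i₀ 1) = b c := by
      intro s
      have hder : ∀ s : ℝ, HasDerivAt
          (fun s : ℝ => b (c + s • (EuclideanSpace.single i₀ 1 : E d))) 0 s := by
        intro s
        have hl : HasDerivAt (fun s : ℝ => c + s • (EuclideanSpace.single i₀ 1 : E d))
            (EuclideanSpace.single i₀ 1) s := by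
          simpa using ((hasDerivAt_id s).smul_const (EuclideanSpace.single i₀ 1 : E d)).const_add c
        have hf := ((hb.differentiable (by simp))
          (c + s • (EuclideanSpace.single i₀ 1 : E d))).hasFDerivAt
        have h3 := hf.comp_hasDerivAt s hl
        have h4 := h0 (c + s • (EuclideanSpace.single i₀ 1 : E d))
        unfold pd at h4
        rw [h4] at h3
        exact h3
      have := is_const_of_deriv_eq_zero (fun s => (hder s).differentiableAt)
        (fun s => (hder s).deriv) s 0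
      simpa using this
    have h2 := h1 r
    have h3 : b c = 1 := b.one_of_mem_closedBall (by simp [b.rIn_pos.le])
    have h4 : b (c + r • EuclideanSpace.single i₀ 1) = 0 := by
      apply b.zero_of_le_dist
      rw [dist_eq_norm, add_sub_cancel_left, norm_smul]
      simp only [PiLp.norm_single, norm_one, mul_one, Real.norm_eq_abs]
      show r / 2 ≤ |r|
      rw [abs_of_pos hr]
      linarith
    rw [h3, h4] at h2
    norm_num at h2

/-! ### The time profile -/

/-- `h(t) = (t - t₁)₊² / 2`. -/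
noncomputable def h (t₁ t : ℝ) : ℝ := (max (t - t₁) 0) ^ 2 / 2

lemma h_hasDerivAt (t₁ t : ℝ) : HasDerivAt (h t₁) (max (t - t₁) 0) t := by
  rcases lt_trichotomy t t₁ with hlt | heq | hgt
  · rw [max_eq_right (by linarith)]
    refine (hasDerivAt_const t (0:ℝ)).congr_of_eventuallyEq ?_
    filter_upwards [Iio_mem_nhds hlt] with s hs
    have hs' : s < t₁ := hs
    unfold h
    rw [max_eq_right (by linarith)]
    norm_num
  · subst heq
    rw [sub_self, max_self]
    rw [hasDerivAt_iff_isLittleO]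
    have h0 : h t t = 0 := by unfold h; simp
    rw [h0]
    simp only [smul_zero, sub_zero]
    have hb : (fun x' : ℝ => h t x') =O[𝓝 t] fun x' => (x' - t) ^ 2 := by
      refine Asymptotics.IsBigO.of_bound 1 (Filter.Eventually.of_forall fun s => ?_)
      unfold h
      rw [Real.norm_eq_abs, Real.norm_eq_abs, abs_of_nonneg (by positivity),
        abs_of_nonneg (by positivity)]
      rcases le_total (s - t) 0 with hs | hs
      · rw [max_eq_right hs]
        nlinarith [sq_nonneg (s - t)]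
      · rw [max_eq_left hs]
        nlinarith [sq_nonneg (s - t)]
    refine hb.trans_isLittleO ?_
    have hlim : Tendsto (fun s : ℝ => s - t) (𝓝 t) (𝓝 0) := by
      have : Tendsto (fun s : ℝ => s - t) (𝓝 t) (𝓝 (t - t)) :=
        (continuous_id.sub continuous_const).tendsto t
      rwa [sub_self] at this
    have h2 : (fun s : ℝ => (s - t) ^ 2) = fun s => (s - t) * (s - t) := by
      funext s; ring
    rw [h2]
    have h3 : (fun s : ℝ => s - t) =o[𝓝 t] (fun _ => (1:ℝ)) :=
      (Asymptotics.isLittleO_one_iff ℝ).2 hlim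
    have h4 := h3.mul_isBigO (Asymptotics.isBigO_refl (fun s : ℝ => s - t) (𝓝 t))
    simpa using h4
  · rw [max_eq_left (by linarith)]
    have h1 : HasDerivAt (fun s : ℝ => (s - t₁) ^ 2 / 2) (t - t₁) t := by
      have := (((hasDerivAt_id t).sub_const t₁).pow 2).div_const 2
      refine this.congr_deriv ?_
      simp
    refine h1.congr_of_eventuallyEq ?_
    filter_upwards [Ioi_mem_nhds hgt] with s hs
    have hs' : t₁ < s := hs
    unfold h
    rw [max_eq_left (by linarith)]

lemma h_continuous (t₁ : ℝ) : Continuous (h t₁) := by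
  unfold h
  fun_prop

lemma h_zero {t₁ t : ℝ} (ht : t ≤ t₁) : h t₁ t = 0 := by
  unfold h
  rw [max_eq_right (by linarith)]
  norm_num

/-- The solution of `H' = h - α H`, `H(0) = 0`. -/
noncomputable def H (α t₁ t : ℝ) : ℝ :=
  Real.exp (-α * t) * ∫ s in (0:ℝ)..t, Real.exp (α * s) * h t₁ s

lemma H_hasDerivAt (α t₁ t : ℝ) : HasDerivAt (H α t₁) (h t₁ t - α * H α t₁ t) t := by
  have hc : Continuous fun s : ℝ => Real.exp (α * s) * h t₁ s := by
    have := h_continuous t₁
    fun_prop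
  have h1 : HasDerivAt (fun t : ℝ => ∫ s in (0:ℝ)..t, Real.exp (α * s) * h t₁ s)
      (Real.exp (α * t) * h t₁ t) t :=
    intervalIntegral.integral_hasDerivAt_right (hc.intervalIntegrable _ _)
      hc.aestronglyMeasurable.stronglyMeasurableAtFilter hc.continuousAt
  have h2 : HasDerivAt (fun t : ℝ => Real.exp (-α * t)) (Real.exp (-α * t) * (-α)) t := by
    have := ((hasDerivAt_id t).const_mul (-α)).exp
    simpa using this
  have h3 := h2.mul h1
  refine h3.congr_deriv ?_
  unfold H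
  have h4 : Real.exp (-α * t) * Real.exp (α * t) = 1 := by
    rw [← Real.exp_add]
    simp
  linear_combination (h t₁ t) * h4

lemma H_continuous (α t₁ : ℝ) : Continuous (H α t₁) :=
  continuous_iff_continuousAt.2 fun t => (H_hasDerivAt α t₁ t).continuousAt

lemma H_zero {α t₁ t : ℝ} (h0 : 0 ≤ t) (ht : t ≤ t₁) : H α t₁ t = 0 := by
  unfold H
  have : ∫ s in (0:ℝ)..t, Real.exp (α * s) * h t₁ s = 0 := by
    have h1 : ∫ s in (0:ℝ)..t, Real.exp (α * s) * h t₁ s = ∫ s in (0:ℝ)..t, (0:ℝ) := by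
      apply intervalIntegral.integral_congr
      intro s hs
      rw [uIcc_of_le h0] at hs
      simp only
      rw [h_zero (hs.2.trans ht), mul_zero]
    rw [h1]
    simp
  rw [this, mul_zero]

/-- A function `q ↦ a(q.1) φ(q.2)` with `a` measurable and bounded on `(0, T)` and `φ` continuous
and bounded is in `L²` of a bounded cylinder. -/
lemma memLp_prod {A B : ℝ} {Ω : Set (E d)} (hΩ : IsOpen Ω) (hb : Bornology.IsBounded Ω)
    {a : ℝ → ℝ} (ha : Measurable a) {C : ℝ} (haC : ∀ t ∈ Ioo A B, |a t| ≤ C)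
    {φ : E d → ℝ} (hφ : Continuous φ) {M : ℝ} (hφM : ∀ x, |φ x| ≤ M) :
    MemLp (fun q : ℝ × E d => a q.1 * φ q.2) 2
      ((volume.restrict (Ioo A B)).prod (volume.restrict Ω)) := by
  have : IsFiniteMeasure (volume.restrict Ω : Measure (E d)) :=
    ⟨by rw [Measure.restrict_apply_univ]; exact hb.measure_lt_top⟩
  refine MemLp.of_bound (((ha.comp measurable_fst).mul
    (hφ.measurable.comp measurable_snd)).aestronglyMeasurable) (C * M) ?_
  rw [Measure.prod_restrict]
  refine ae_restrict_of_forall_mem (measurableSet_Ioo.prod hΩ.measurableSet) ?_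
  intro q hq
  rw [Real.norm_eq_abs, abs_mul]
  exact mul_le_mul (haC q.1 hq.1) (hφM q.2) (abs_nonneg _) ((abs_nonneg _).trans (haC q.1 hq.1))

lemma bounded_of_eventually {K : Set (E d)} (hK : IsCompact K) {φ : E d → ℝ} (hφ : Continuous φ)
    (h0 : ∀ x, x ∉ K → φ x = 0) : ∃ M, ∀ x, |φ x| ≤ M := by
  obtain ⟨M, hM⟩ := hK.exists_bound_of_continuousOn hφ.continuousOn
  refine ⟨max M 0, fun x => ?_⟩
  by_cases hx : x ∈ K
  · exact (hM x hx).trans (le_max_left _ _)
  · rw [h0 x hx, abs_zero]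
    exact le_max_right _ _

lemma complement_nonempty (hd : 2 ≤ d) {Ω D₁ D₂ : Set (E d)} (hΩ : IsOpen Ω)
    (hb : Bornology.IsBounded Ω) (hne : Ω.Nonempty) (h1 : closure D₁ ⊆ Ω) (h2 : closure D₂ ⊆ Ω) :
    (Ω \ (closure D₁ ∪ closure D₂)).Nonempty := by
  by_contra hcon
  rw [not_nonempty_iff_eq_empty, sdiff_eq_empty] at hcon
  have heq : Ω = closure D₁ ∪ closure D₂ := subset_antisymm hcon (union_subset h1 h2)
  have hcl : IsClosed Ω := by
    rw [heq]
    exact isClosed_closure.union isClosed_closure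
  have huniv : Ω = univ := (isClopen_iff.1 ⟨hcl, hΩ⟩).resolve_left hne.ne_empty
  rw [huniv] at hb
  have : Nonempty (Fin d) := ⟨⟨0, by omega⟩⟩
  have : Nontrivial (E d) := inferInstance
  exact (NormedSpace.unbounded_univ ℝ (E d)) hb

/-- The explicit solution. -/
lemma isSolution_of_field {ν α β T t₁ : ℝ} {Ω D K : Set (E d)} (hΩ : IsOpen Ω)
    (hKΩ : K ⊆ Ω) (hKD : Disjoint K (closure D)) {w : E d → Fin d → ℝ}
    (hws : ∀ i, ContDiff ℝ ∞ (fun x => w x i))
    (hw0 : ∀ x, x ∉ K → ∀ i, (fun y => w y i) =ᶠ[𝓝 x] fun _ => 0) (hdiv : ∀ x, dvg w x = 0) :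
    IsSolution ν α β T Ω D
      (fun t x i => max (t - t₁) 0 * w x i -
        (ν * h t₁ t + β * H α t₁ t) * lap (fun y => w y i) x)
      (fun t x i => h t₁ t * w x i) (fun _ _ => 0)
      (fun t x => Matrix.of fun i j => (2 * β * H α t₁ t) * symGrad w x i j) := by
  have hsymm : ∀ i j, ContDiff ℝ ∞ (fun x => symGrad w x i j) := by
    intro i j
    unfold symGrad
    simp only [Matrix.of_apply]
    exact ((pd_smooth (hws i) j).add (pd_smooth (hws j) i)).div_const 2
  have hcw : ∀ (c : ℝ) i, ContDiff ℝ ∞ (fun x => c * w x i) := fun c i =>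
    contDiff_const.mul (hws i)
  have hpdw : ∀ (c : ℝ) i j x, pd j (fun y => c * w y i) x = c * pd j (fun y => w y i) x :=
    fun c i j x => pd_const_mul c (hws i) j x
  have h2i : (2 : WithTop ℕ∞) ≤ ∞ := two_le_infty
  have h1i : (1 : WithTop ℕ∞) ≤ ∞ := le_trans one_le_two two_le_infty
  refine ⟨⟨?_, ?_, ?_, ?_, ?_, ?_⟩, ?_, ?_, ?_, ?_⟩
  · intro i
    apply Continuous.continuousOn
    have h1 := h_continuous t₁
    have h2 := (hws i).continuous
    exact (h1.comp continuous_fst).mul (h2.comp continuous_snd)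
  · intro t _ i
    exact ((hcw _ i).of_le h2i).contDiffOn
  · intro t _
    exact contDiffOn_const
  · intro t _ i j
    simp only [Matrix.of_apply]
    exact ((contDiff_const.mul (hsymm i j)).of_le h1i).contDiffOn
  · intro t _ x _ i
    exact ((h_hasDerivAt t₁ t).mul_const (w x i)).differentiableAt
  · intro t _ x _ i j
    simp only [Matrix.of_apply]
    exact (((H_hasDerivAt α t₁ t).const_mul (2 * β)).mul_const (symGrad w x i j)).differentiableAt
  · intro t _ x _ i
    have e1 : deriv (fun s => h t₁ s * w x i) t = max (t - t₁) 0 * w x i :=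
      ((h_hasDerivAt t₁ t).mul_const (w x i)).deriv
    have e2 : pd i (fun _ : E d => (0:ℝ)) x = 0 := by
      unfold pd; simp
    have e3 : lap (fun y => h t₁ t * w y i) x = h t₁ t * lap (fun y => w y i) x :=
      lap_const_mul _ (hws i) x
    have e4 : dvgMat (fun x => Matrix.of fun i j => (2 * β * H α t₁ t) * symGrad w x i j) x i =
        β * H α t₁ t * lap (fun y => w y i) x := by
      unfold dvgMat
      simp only [Matrix.of_apply]
      have hterm : ∀ j, pd j (fun y => 2 * β * H α t₁ t * symGrad w y i j) x =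
          β * H α t₁ t * (pd j (pd j (fun y => w y i)) x + pd i (pd j (fun y => w y j)) x) := by
        intro j
        have hfun : (fun y => 2 * β * H α t₁ t * symGrad w y i j) =
            fun y => (β * H α t₁ t) * (pd j (fun y => w y i) y + pd i (fun y => w y j) y) := by
          funext y
          unfold symGrad
          simp only [Matrix.of_apply]
          ring
        rw [hfun, pd_const_mul _ ((pd_smooth (hws i) j).add (pd_smooth (hws j) i)),
          pd_add (pd_smooth (hws i) j) (pd_smooth (hws j) i), pd_comm (hws j) j i]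
      rw [Finset.sum_congr rfl fun j _ => hterm j, ← Finset.mul_sum, Finset.sum_add_distrib]
      have hz : ∑ j, pd i (pd j (fun y => w y j)) x = 0 := by
        have hdz : (fun y => dvg w y) = fun _ => (0:ℝ) := funext hdiv
        have : pd i (fun y => dvg w y) x = 0 := by
          rw [hdz]
          unfold pd
          simp
        unfold dvg at this
        rw [← this]
        exact (pd_sum (fun j => pd_smooth (hws j) j) i x).symm
      rw [hz, add_zero]
      rfl
    rw [e1, e2, e3, e4]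
    ring
  · intro t _ x _
    unfold dvg
    have := hdiv x
    unfold dvg at this
    rw [Finset.sum_congr rfl fun i _ => hpdw (h t₁ t) i i x, ← Finset.mul_sum, this, mul_zero]
  · intro t _ x _ i j
    simp only [Matrix.of_apply]
    rw [(((H_hasDerivAt α t₁ t).const_mul (2 * β)).mul_const (symGrad w x i j)).deriv]
    have : symGrad (fun x i => h t₁ t * w x i) x i j = h t₁ t * symGrad w x i j := by
      unfold symGrad
      simp only [Matrix.of_apply]
      rw [hpdw, hpdw]
      ring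
    rw [this]
    ring
  · intro t _ x hx
    have hxK : x ∉ K := by
      rcases hx with hx | hx
      · intro hK
        have := hKΩ hK
        rw [hΩ.frontier_eq] at hx
        exact hx.2 this
      · intro hK
        exact hKD.le_bot ⟨hK, frontier_subset_closure hx⟩
    funext i
    have h5 : w x i = 0 := (hw0 x hxK i).eq_of_nhds
    simp [h5]

lemma abs_bound_Icc {T : ℝ} {c : ℝ → ℝ} (hc : Continuous c) : ∃ C, ∀ t ∈ Icc 0 T, |c t| ≤ C := by
  obtain ⟨C, hC⟩ := (isCompact_Icc (a := (0:ℝ)) (b := T)).exists_bound_of_continuousOn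
    hc.continuousOn
  exact ⟨C, fun t ht => hC t ht⟩

lemma max_hasDerivAt {t₁ t : ℝ} (ht : t ≠ t₁) :
    HasDerivAt (fun t : ℝ => max (t - t₁) 0) (if t₁ < t then 1 else 0) t := by
  rcases lt_or_gt_of_ne ht with hlt | hgt
  · rw [if_neg (by linarith)]
    refine (hasDerivAt_const t (0:ℝ)).congr_of_eventuallyEq ?_
    filter_upwards [Iio_mem_nhds hlt] with s hs
    have hs' : s < t₁ := hs
    exact max_eq_right (by linarith)
  · rw [if_pos hgt]
    refine ((hasDerivAt_id t).sub_const t₁).congr_of_eventuallyEq ?_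
    filter_upwards [Ioi_mem_nhds hgt] with s hs
    have hs' : t₁ < s := hs
    exact max_eq_left (by simpa using hs'.le)

/-- The source is admissible. -/
lemma admissible_of_field {ν α β T : ℝ} (hT : 0 < T) {Ω D₁ D₂ K : Set (E d)} (hΩ : IsOpen Ω)
    (hb : Bornology.IsBounded Ω) (hK : IsCompact K) (hKD : Disjoint K (D₁ ∪ D₂))
    {w : E d → Fin d → ℝ} (hws : ∀ i, ContDiff ℝ ∞ (fun x => w x i))
    (hw0 : ∀ x, x ∉ K → ∀ i, (fun y => w y i) =ᶠ[𝓝 x] fun _ => 0) {x₀ : E d} (hx₀ : x₀ ∈ Ω)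
    (hwx : w x₀ ≠ 0) :
    Admissible T Ω D₁ D₂
      (fun t x i => max (t - T / 2) 0 * w x i -
        (ν * h (T / 2) t + β * H α (T / 2) t) * lap (fun y => w y i) x) := by
  set t₁ : ℝ := T / 2 with ht₁
  set L : Fin d → E d → ℝ := fun i => lap (fun y => w y i) with hL
  have hLc : ∀ i, Continuous (L i) := fun i => (lap_smooth (hws i)).continuous
  have hL0 : ∀ i x, x ∉ K → L i x = 0 := fun i x hx => lap_zero_of_eventually (hw0 x hx i)
  have hw0' : ∀ i x, x ∉ K → w x i = 0 := fun i x hx => (hw0 x hx i).eq_of_nhds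
  choose Mw hMw using fun i => bounded_of_eventually hK (hws i).continuous (hw0' i)
  choose ML hML using fun i => bounded_of_eventually hK (hLc i) (hL0 i)
  -- time coefficients
  have hhc := h_continuous t₁
  have hHc := H_continuous α t₁
  set c : ℝ → ℝ := fun t => ν * h t₁ t + β * H α t₁ t with hc
  set c1 : ℝ → ℝ := fun t => ν * max (t - t₁) 0 + β * (h t₁ t - α * H α t₁ t) with hc1
  set χ : ℝ → ℝ := fun t => if t₁ < t then 1 else 0 with hχ
  have hcc : Continuous c := by rw [hc]; fun_prop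
  have hc1c : Continuous c1 := by rw [hc1]; fun_prop
  have hmc : Continuous (fun t : ℝ => max (t - t₁) 0) := by fun_prop
  have hχm : Measurable χ := Measurable.ite measurableSet_Ioi measurable_const measurable_const
  have hχb : ∀ t, |χ t| ≤ 1 := by
    intro t
    rw [hχ]
    simp only
    split_ifs <;> simp
  have hcder : ∀ t, HasDerivAt c (c1 t) t := fun t =>
    ((h_hasDerivAt t₁ t).const_mul ν).add ((H_hasDerivAt α t₁ t).const_mul β)
  have hc10 : ∀ t, 0 ≤ t → t ≤ t₁ → c1 t = 0 := by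
    intro t h0 h1
    simp only [hc1]
    rw [max_eq_right (by linarith), h_zero h1, H_zero h0 h1]
    ring
  obtain ⟨Cm, hCm⟩ := abs_bound_Icc (T := T) hmc
  obtain ⟨Cc, hCc⟩ := abs_bound_Icc (T := T) hcc
  obtain ⟨Cc1, hCc1⟩ := abs_bound_Icc (T := T) hc1c
  have hsub : ∀ {a b : ℝ}, 0 ≤ a → b ≤ T → ∀ t ∈ Ioo a b, t ∈ Icc 0 T := fun ha hb' t ht =>
    ⟨ha.trans ht.1.le, ht.2.le.trans hb'⟩
  set f : ℝ → E d → Fin d → ℝ := fun t x i => max (t - t₁) 0 * w x i - c t * L i x with hf
  set g1 : ℝ → E d → Fin d → ℝ := fun t x i => χ t * w x i - c1 t * L i x with hg1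
  set r₂ : ℝ → E d → Fin d → ℝ := fun t x i => - c1 t * L i x with hr₂
  refine ⟨1, fun j => if j = 0 then f else g1, T / 4, t₁, T, 0, 1, w, fun _ _ => 0, r₂,
    by simp [hf, hc, hL], ?_, ?_, by positivity, by rw [ht₁]; linarith, by rw [ht₁]; linarith,
    le_refl _, ⟨?_, ?_, ?_, ?_, ?_, ?_⟩, ?_⟩
  · intro j hj i
    rcases Nat.le_one_iff_eq_zero_or_eq_one.1 hj with rfl | rfl
    · simp only [if_true, hf]
      exact (memLp_prod hΩ hb hmc.measurable (fun t ht => hCm t (hsub le_rfl le_rfl t ht))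
        (hws i).continuous (hMw i)).sub
        (memLp_prod hΩ hb hcc.measurable (fun t ht => hCc t (hsub le_rfl le_rfl t ht))
        (hLc i) (hML i))
    · simp only [one_ne_zero, if_false, hg1]
      exact (memLp_prod hΩ hb hχm (fun t _ => hχb t)
        (hws i).continuous (hMw i)).sub
        (memLp_prod hΩ hb hc1c.measurable (fun t ht => hCc1 t (hsub le_rfl le_rfl t ht))
        (hLc i) (hML i))
  · intro j hj i x _ s _ t _
    have hj0 : j = 0 := by omega
    subst hj0
    simp only [zero_add, one_ne_zero, if_false, if_true]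
    have hint : IntervalIntegrable (fun r => g1 r x i) volume s t := by
      simp only [hg1]
      refine IntervalIntegrable.sub ?_ ?_
      · have hmono : Monotone χ := by
          intro a b hab
          simp only [hχ]
          split_ifs with h3 h4 h4
          · exact le_rfl
          · exact absurd (h3.trans_le hab) h4
          · exact zero_le_one
          · exact le_rfl
        exact (hmono.intervalIntegrable (a := s) (b := t)).mul_const _
      · exact ((hc1c.mul continuous_const).intervalIntegrable _ _)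
    refine ⟨hint, ?_⟩
    symm
    refine integral_eq_of_hasDerivAt_off_countable (fun r => f r x i) (fun r => g1 r x i)
      (countable_singleton t₁) ?_ ?_ hint
    · apply Continuous.continuousOn
      simp only [hf]
      fun_prop
    · intro r hr
      have hrt : r ≠ t₁ := fun h => hr.2 (by simp [h])
      simp only [hf, hg1]
      exact ((max_hasDerivAt hrt).mul_const _).sub ((hcder r).mul_const _)
  · intro i
    have : IsFiniteMeasure (volume.restrict Ω : Measure (E d)) :=
      ⟨by rw [Measure.restrict_apply_univ]; exact hb.measure_lt_top⟩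
    exact MemLp.of_bound (hws i).continuous.aestronglyMeasurable (Mw i)
      (Filter.Eventually.of_forall fun x => hMw i x)
  · intro hae
    apply hwx
    funext i
    have h1 : (fun x => w x i) =ᵐ[volume.restrict Ω] fun _ => 0 := by
      filter_upwards [hae] with x hx
      have := congrFun hx i
      simpa using this.symm
    exact Measure.eqOn_open_of_ae_eq h1 hΩ (hws i).continuous.continuousOn continuousOn_const hx₀
  · intro t ht x _
    funext i
    have h0 : (0:ℝ) ≤ t := by linarith [ht.1]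
    simp only [one_ne_zero, if_false, hg1, hχ]
    rw [if_neg (not_lt.2 ht.2.le), hc10 t h0 ht.2.le]
    simp
  · intro t ht x _
    funext i
    simp only [one_ne_zero, if_false, hg1, hχ, hr₂]
    rw [if_pos ht.1]
    simp only [Pi.add_apply, Pi.smul_apply, smul_eq_mul]
    ring
  · intro i
    simp only [hr₂]
    refine memLp_prod hΩ hb hc1c.neg.measurable (C := Cc1) (fun t ht => ?_) (hLc i) (hML i)
    rw [Pi.neg_apply, abs_neg]
    exact hCc1 t (hsub (by rw [ht₁]; linarith) le_rfl t ht)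
  · refine ⟨1, one_pos, fun i => ⟨fun _ => 0, analyticOnNhd_const, fun t _ => ?_⟩⟩
    filter_upwards [Lp.coeFn_zero ℝ 2 (volume.restrict Ω : Measure (E d))] with x hx
    rw [hx]
    rfl
  · intro x hx
    have hxK : x ∉ K := fun hK' => hKD.le_bot ⟨hK', hx⟩
    refine ⟨funext fun i => hw0' i x hxK, fun _ => rfl, fun t => funext fun i => ?_⟩
    simp only [hr₂]
    rw [hL0 i x hxK, mul_zero]
    rfl

/-- **Negative answer to Q1.** For every bounded nonempty open `Ω`, every pair of obstacles with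
closures in `Ω`, and all `ν, α, β, T > 0` there is an admissible source `f`, and `(u, p, τ)` which
solves the obstacle problem for *both* obstacles, whose velocity is not identically zero, and whose
normal stress vanishes near the whole outer boundary at all times. -/
theorem result {d : ℕ} (hd : 2 ≤ d) {ν α β T : ℝ} (_hν : 0 < ν) (_hα : 0 < α) (_hβ : 0 < β)
    (hT : 0 < T) {Ω D₁ D₂ : Set (E d)} (hΩ : IsOpen Ω) (hb : Bornology.IsBounded Ω)
    (hne : Ω.Nonempty) (h1 : closure D₁ ⊆ Ω) (h2 : closure D₂ ⊆ Ω) :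
    ∃ (f u : ℝ → E d → Fin d → ℝ) (p : ℝ → E d → ℝ) (τ : ℝ → E d → Matrix (Fin d) (Fin d) ℝ),
      Admissible T Ω D₁ D₂ f ∧
      IsSolution ν α β T Ω D₁ f u p τ ∧ IsSolution ν α β T Ω D₂ f u p τ ∧
      (∃ t ∈ Ioo 0 T, ∃ x ∈ Ω \ (closure D₁ ∪ closure D₂), u t x ≠ 0) ∧
      ∀ t ∈ Ioo 0 T, ∀ x ∈ frontier Ω, ∀ᶠ y in 𝓝 x, stress ν (u t) (p t) y = 0 := by
  obtain ⟨w, K, hKc, hKV, hws, hw0, hdiv, x₀, hx₀V, hx₀⟩ := exists_field hd
    (hΩ.sdiff (isClosed_closure.union isClosed_closure))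
    (complement_nonempty hd hΩ hb hne h1 h2)
  have hKΩ : K ⊆ Ω := fun x hx => (hKV hx).1
  have hK1 : Disjoint K (closure D₁) := by
    rw [Set.disjoint_left]
    exact fun x hx hx' => (hKV hx).2 (Or.inl hx')
  have hK2 : Disjoint K (closure D₂) := by
    rw [Set.disjoint_left]
    exact fun x hx hx' => (hKV hx).2 (Or.inr hx')
  have hK12 : Disjoint K (D₁ ∪ D₂) := by
    rw [Set.disjoint_left]
    intro x hx hx'
    rcases hx' with hx' | hx'
    · exact (hKV hx).2 (Or.inl (subset_closure hx'))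
    · exact (hKV hx).2 (Or.inr (subset_closure hx'))
  refine ⟨_, _, _, _, admissible_of_field hT hΩ hb hKc hK12 hws hw0 hx₀V.1 hx₀,
    isSolution_of_field hΩ hKΩ hK1 hws hw0 hdiv, isSolution_of_field hΩ hKΩ hK2 hws hw0 hdiv,
    ?_, ?_⟩
  · refine ⟨3 * T / 4, ⟨by positivity, by linarith⟩, x₀, hx₀V, fun h0 => hx₀ ?_⟩
    funext i
    have h3 : h (T / 2) (3 * T / 4) * w x₀ i = 0 := congrFun h0 i
    have h4 : h (T / 2) (3 * T / 4) ≠ 0 := by
      unfold h
      rw [max_eq_left (by linarith)]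
      have : 0 < 3 * T / 4 - T / 2 := by linarith
      positivity
    exact (mul_eq_zero.1 h3).resolve_left h4
  · intro t _ x hx
    have hxK : x ∉ K := by
      intro hK'
      rw [hΩ.frontier_eq] at hx
      exact hx.2 (hKΩ hK')
    have hall : ∀ᶠ y in 𝓝 x, y ∉ K := hKc.isClosed.isOpen_compl.mem_nhds hxK
    filter_upwards [hall] with y hy
    unfold stress
    have hz : symGrad (fun x i => h (T / 2) t * w x i) y = 0 := by
      ext i j
      unfold symGrad
      simp only [Matrix.of_apply, Matrix.zero_apply]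
      rw [pd_const_mul _ (hws i), pd_const_mul _ (hws j),
        (pd_zero_of_eventually (hw0 y hy i) j).eq_of_nhds,
        (pd_zero_of_eventually (hw0 y hy j) i).eq_of_nhds]
      ring
    rw [hz]
    simp

end Pool.Agent.Results.MP_b53110_an.HiddenObstacles
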